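import Mathlib
import Pool.Agent.Y91.JP.Sharp

/-!
# Elements of rank one in Lie algebras generated by involutions, dimension not divisible by four
-/

set_option linter.unusedSectionVars false

namespace Pool.Agent.Y265.P

open Module LinearMap Pool.Agent.W548.Odd Pool.Agent.Y91.JP

variable {K : Type*} [Field K] [CharZero K] {V : Type*} [AddCommGroup V] [Module K V]
  [FiniteDimensional K V]

variable {G I : Submodule K (End K V)} {st : End K V →ₗ[K] End K V} (h : Setup G st)

/-- The span of the commutators. -/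
def cmS (I : Submodule K (End K V)) : Submodule K (End K V) :=
  Submodule.span K {z | ∃ x ∈ I, ∃ y ∈ I, z = x * y - y * x}

theorem cmS_le (hI : IsIdl G I) : cmS I ≤ I := by
  refine Submodule.span_le.2 ?_
  rintro _ ⟨x, hx, y, hy, rfl⟩
  exact hI.br x (hI.le hx) y hy

theorem cmS_idl (hI : IsIdl G I) : IsIdl G (cmS I) := by
  refine ⟨(cmS_le hI).trans hI.le, fun y hy z hz => ?_⟩
  refine Submodule.span_induction (p := fun z _ => y * z - z * y ∈ cmS I) ?_ ?_ ?_ ?_ hz
  · rintro _ ⟨a, ha, b, hb, rfl⟩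
    have e : y * (a * b - b * a) - (a * b - b * a) * y =
        ((y * a - a * y) * b - b * (y * a - a * y)) +
          (a * (y * b - b * y) - (y * b - b * y) * a) := by noncomm_ring
    rw [e]
    exact Submodule.add_mem _ (Submodule.subset_span ⟨_, hI.br y hy a ha, b, hb, rfl⟩)
      (Submodule.subset_span ⟨a, ha, _, hI.br y hy b hb, rfl⟩)
  · rw [mul_zero, zero_mul, sub_zero]
    exact Submodule.zero_mem _
  · intro a b _ _ ha hb
    have e : y * (a + b) - (a + b) * y = (y * a - a * y) + (y * b - b * y) := by noncomm_ring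
    rw [e]
    exact Submodule.add_mem _ ha hb
  · intro c a _ ha
    have e : y * (c • a) - (c • a) * y = c • (y * a - a * y) := by
      rw [mul_smul_comm, smul_mul_assoc, smul_sub]
    rw [e]
    exact Submodule.smul_mem _ _ ha

include h in
/-- An involution is a sum of commutators of elements of the ideal which it generates. -/
theorem mem_cmS (hs : Scal G) {D : End K V} (hD : D ∈ G) (hD2 : D * D = 1) (hD0 : D ≠ 0) :
    D ∈ cmS (gn G D) := by
  have hI := gn_idl h hD
  rcases invol_dich h hs (cmS_idl hI) hD hD2 with h1 | h1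
  · exact h1
  exfalso
  apply hD0
  refine central_zero h hs hD hD2 hD fun z hz => ?_
  have hw : D * z - z * D ∈ gn G D := hI.br' mem_gn hz
  have hw2 : D * (D * z - z * D) - (D * z - z * D) * D ∈ cmS (gn G D) :=
    Submodule.subset_span ⟨D, mem_gn, _, hw, rfl⟩
  have hc := h1.2 _ hw2
  have e0 : D * (D * z) = z := by rw [← mul_assoc, hD2, one_mul]
  have e1 : z * D * D = z := by rw [mul_assoc, hD2, mul_one]
  have e2 : D * (D * z - z * D) - (D * z - z * D) * D = (2 : K) • (z - D * z * D) := by
    rw [mul_sub, sub_mul, e0, e1, two_smul]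
    noncomm_ring
  rw [e2] at hc
  have e3 : D * ((2 : K) • (z - D * z * D)) = (2 : K) • (D * z - z * D) := by
    rw [mul_smul_comm, mul_sub]
    congr 2
    rw [← mul_assoc, ← mul_assoc, hD2, one_mul]
  have e4 : (2 : K) • (z - D * z * D) * D = (2 : K) • (z * D - D * z) := by
    rw [smul_mul_assoc, sub_mul]
    congr 2
    rw [mul_assoc, hD2, mul_one]
  rw [e3, e4] at hc
  have e5 : (4 : K) • (D * z - z * D) = 0 := by
    have e6 : (4 : K) • (D * z - z * D) = (2 : K) • (D * z - z * D) - (2 : K) • (z * D - D * z) := by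
      module
    rw [e6, hc, sub_self]
  exact sub_eq_zero.1 ((smul_eq_zero.1 e5).resolve_left (by norm_num))

/-- Sums of commutators have trace zero, also after multiplication with an element that commutes
with the ideal. -/
theorem trace_cmS {c x : End K V} (hc : ∀ z ∈ I, c * z = z * c) (hx : x ∈ cmS I) :
    trace K V (x * c) = 0 := by
  refine Submodule.span_induction (p := fun x _ => trace K V (x * c) = 0) ?_ ?_ ?_ ?_ hx
  · rintro _ ⟨a, ha, b, -, rfl⟩
    have e1 : trace K V (b * a * c) = trace K V (a * b * c) := by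
      have e2 : b * a * c = b * (c * a) := by rw [mul_assoc, hc a ha]
      rw [e2, LinearMap.trace_mul_comm, mul_assoc, LinearMap.trace_mul_comm]
    rw [sub_mul, map_sub, e1, sub_self]
  · rw [zero_mul, map_zero]
  · intro a b _ _ ha hb
    rw [add_mul, map_add, ha, hb, add_zero]
  · intro t a _ ha
    rw [smul_mul_assoc, map_smul, ha, smul_zero]

include h in
theorem trace_invol (hs : Scal G) {D : End K V} (hD : D ∈ G) (hD2 : D * D = 1) :
    trace K V D = 0 := by
  by_cases hD0 : D = 0
  · rw [hD0, map_zero]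
  have h1 := trace_cmS (c := 1) (fun z _ => by rw [one_mul, mul_one]) (mem_cmS h hs hD hD2 hD0)
  rwa [mul_one] at h1

include h in
/-- If an involution of the Lie algebra commutes with the ideal generated by another one then the
dimension is divisible by four. -/
theorem four_dvd (hs : Scal G) {D D' : End K V} (hD : D ∈ G) (hD2 : D * D = 1)
    (hD' : D' ∈ cen G (gn G D)) (hD'2 : D' * D' = 1) : 4 ∣ finrank K V := by
  by_cases hD0 : D = 0
  · have h1 : (1 : End K V) = 0 := by rw [← hD2, hD0, mul_zero]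
    have h2 : (finrank K V : K) = 0 := by rw [← LinearMap.trace_one, h1, map_zero]
    have h3 : finrank K V = 0 := by exact_mod_cast h2
    rw [h3]
    exact dvd_zero _
  have t1 := trace_invol h hs hD hD2
  have t2 := trace_invol h hs hD'.1 hD'2
  have t3 : trace K V (D * D') = 0 := trace_cmS hD'.2 (mem_cmS h hs hD hD2 hD0)
  have hcomm : D' * D = D * D' := hD'.2 D mem_gn
  have hP : ((1 / 4 : K) • ((1 + D) * (1 + D'))) * ((1 / 4 : K) • ((1 + D) * (1 + D'))) =
      (1 / 4 : K) • ((1 + D) * (1 + D')) := by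
    have e1 : (1 + D') * (1 + D) = (1 + D) * (1 + D') := by
      rw [mul_add, mul_add, add_mul, add_mul, add_mul, hcomm, add_mul]
      simp only [one_mul, mul_one]
      abel
    have e2 : (1 + D) * (1 + D) = (2 : K) • (1 + D) := by
      rw [two_smul, add_mul, mul_add, mul_add, hD2]
      simp only [one_mul, mul_one]
      abel
    have e3 : (1 + D') * (1 + D') = (2 : K) • (1 + D') := by
      rw [two_smul, add_mul, mul_add, mul_add, hD'2]
      simp only [one_mul, mul_one]
      abel
    have e4 : (1 + D) * (1 + D') * ((1 + D) * (1 + D')) = (4 : K) • ((1 + D) * (1 + D')) := by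
      calc (1 + D) * (1 + D') * ((1 + D) * (1 + D')) =
            (1 + D) * ((1 + D') * (1 + D)) * (1 + D') := by simp only [mul_assoc]
        _ = (1 + D) * (1 + D) * ((1 + D') * (1 + D')) := by rw [e1]; simp only [mul_assoc]
        _ = (4 : K) • ((1 + D) * (1 + D')) := by
            rw [e2, e3, smul_mul_smul_comm]
            norm_num
    rw [smul_mul_smul_comm, e4, smul_smul]
    norm_num
  have h1 := trace_idem hP
  have h2 : trace K V ((1 / 4 : K) • ((1 + D) * (1 + D'))) = (1 / 4 : K) * finrank K V := by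
    simp only [map_smul, add_mul, mul_add, map_add, one_mul, mul_one, t1, t2, t3,
      LinearMap.trace_one, smul_eq_mul]
    ring
  rw [h2] at h1
  refine ⟨rk ((1 / 4 : K) • ((1 + D) * (1 + D'))), ?_⟩
  have h3 : (finrank K V : K) = 4 * (rk ((1 / 4 : K) • ((1 + D) * (1 + D'))) : K) := by
    rw [← h1]
    ring
  exact_mod_cast h3

include h in
/-- If all square zero elements have full rank then there is an element of rank one. -/
theorem full_case [IsAlgClosed K] (hs : Scal G) {D : End K V} (hD : D ∈ G) (hD2 : D * D = 1)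
    (hgn : G ≤ gn G D) (hV : finrank K V ≠ 0)
    (hall : ∀ x ∈ G, x * x = 0 → x ≠ 0 → 2 * rk x = finrank K V) : ∃ e ∈ G, rk e = 1 := by
  have hne : D ≠ 0 := by
    rintro rfl
    apply hV
    have h2 : (finrank K V : K) = 0 := by rw [← LinearMap.trace_one, ← hD2, mul_zero, map_zero]
    exact_mod_cast h2
  obtain ⟨u, hu, hu0⟩ := exists_kp_ne h hs hD hD2 hne
  have hirr : ∀ W : Submodule K V, (∀ w ∈ W, D w = w) →
      (∀ x ∈ Kp G D, ∀ y ∈ Kp G (-D), ∀ w ∈ W, x (y w) ∈ W) →
        W = ⊥ ∨ ∀ v, D v = v → v ∈ W :=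
    fun W hW1 hW => irr_plus h hs hD hD2 hgn hu hu0 hW1 hW
  have hprim : ∀ x ∈ G, x * x = 0 → x ≠ 0 → ∀ y ∈ G, ∃ s : K, x * y * x = s • x := by
    intro x hx hx2 hx0
    by_contra hn
    obtain ⟨x', hx', hx'2, hx'0, h1⟩ := halving_sq h hx hx2 hn
    have h2 := hall x hx hx2 hx0
    have h3 := hall x' hx' hx'2 hx'0
    omega
  obtain ⟨d, hd, h1, h2⟩ := kp_partner h hD hD2 hu
  have hd0 : d ≠ 0 := by
    rintro rfl
    apply hu0
    rw [← h1, mul_zero, zero_mul]
  have hdn := mem_Kn.1 hd
  have hpu := hprim u hu.1 (kp_sq hu) hu0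
  have hpd := hprim d hd.1 (kp_sq hd) hd0
  have tD := trace_invol h hs hD hD2
  -- the idempotents
  have key : ∀ (a b E : End K V), a * b * a = a → b * a * b = b → 2 * rk a = finrank K V →
      E * a = a → b * E = b → E * E = 1 → trace K V E = 0 → a * b = (1 / 2 : K) • (1 + E) := by
    intro a b E hab hba hr hEa hbE hE2 htE
    have hpp : a * b * (a * b) = a * b := by rw [← mul_assoc, hab]
    have hrp : rk (a * b) = rk a := by
      apply le_antisymm (rk_mul_le_left _ _)
      conv_lhs => rw [← hab]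
      exact rk_mul_le_left _ _
    have hep : (1 / 2 : K) • (1 + E) * (a * b) = a * b := by
      rw [smul_mul_assoc, add_mul, one_mul, ← mul_assoc, hEa, ← two_smul K, smul_smul]
      norm_num
    have hpe : a * b * ((1 / 2 : K) • (1 + E)) = a * b := by
      rw [mul_smul_comm, mul_add, mul_one, mul_assoc, hbE, ← two_smul K, smul_smul]
      norm_num
    have hee : (1 / 2 : K) • (1 + E) * ((1 / 2 : K) • (1 + E)) = (1 / 2 : K) • (1 + E) := by
      have e2 : (1 + E) * (1 + E) = (2 : K) • (1 + E) := by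
        rw [two_smul, add_mul, mul_add, mul_add, hE2]
        simp only [one_mul, mul_one]
        abel
      rw [smul_mul_smul_comm, e2, smul_smul]
      norm_num
    have hid : ((1 / 2 : K) • (1 + E) - a * b) * ((1 / 2 : K) • (1 + E) - a * b) =
        (1 / 2 : K) • (1 + E) - a * b := by
      rw [sub_mul, mul_sub, mul_sub, hee, hep, hpe, hpp]
      abel
    have ht := trace_idem hid
    rw [map_sub, trace_idem hpp, map_smul, map_add, htE, LinearMap.trace_one, hrp, smul_eq_mul,
      ← hr] at ht
    push_cast at ht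
    have h3 : (rk ((1 / 2 : K) • (1 + E) - a * b) : K) = 0 := by
      rw [← ht]
      ring
    have h4 : rk ((1 / 2 : K) • (1 + E) - a * b) = 0 := by exact_mod_cast h3
    exact (sub_eq_zero.1 (rk_eq_zero h4)).symm
  have hp : u * d = (1 / 2 : K) • (1 + D) :=
    key u d D h1 h2 (hall u hu.1 (kp_sq hu) hu0) hu.2.1 hdn.2.2 hD2 tD
  have hq : d * u = (1 / 2 : K) • (1 + -D) :=
    key d u (-D) h2 h1 (hall d hd.1 (kp_sq hd) hd0) (by rw [neg_mul, hdn.2.1, neg_neg])
      (by rw [mul_neg, hu.2.2, neg_neg]) (by rw [neg_mul_neg, hD2]) (by rw [map_neg, tD, neg_zero])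
  -- the elements of degree one
  have hx1 : ∀ x ∈ Kp G D, ∃ s : K, x = s • u := by
    intro x hx
    obtain ⟨s, hs'⟩ := hpd x hx.1
    refine ⟨s, ?_⟩
    have e1 : u * d * x = x := by
      rw [hp, smul_mul_assoc, add_mul, one_mul, hx.2.1, ← two_smul K, smul_smul]
      norm_num
    have e2 : x * (d * u) = x := by
      rw [hq, mul_smul_comm, mul_add, mul_one, mul_neg, hx.2.2, neg_neg, ← two_smul K, smul_smul]
      norm_num
    calc x = u * d * x * (d * u) := by rw [e1, e2]
      _ = u * (d * x * d) * u := by noncomm_ring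
      _ = s • u := by rw [hs', mul_smul_comm, smul_mul_assoc, h1]
  have hy1 : ∀ y ∈ Kp G (-D), ∃ s : K, y = s • d := by
    intro y hy
    have hyn := mem_Kn.1 hy
    obtain ⟨s, hs'⟩ := hpu y hy.1
    refine ⟨s, ?_⟩
    have e1 : d * u * y = y := by
      rw [hq, smul_mul_assoc, add_mul, one_mul, neg_mul, hyn.2.1, neg_neg, ← two_smul K,
        smul_smul]
      norm_num
    have e2 : y * (u * d) = y := by
      rw [hp, mul_smul_comm, mul_add, mul_one, hyn.2.2, ← two_smul K, smul_smul]
      norm_num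
    calc y = d * u * y * (u * d) := by rw [e1, e2]
      _ = d * (u * y * u) * d := by noncomm_ring
      _ = s • d := by rw [hs', mul_smul_comm, smul_mul_assoc, h2]
  -- a line
  obtain ⟨w, hw⟩ : ∃ w, u w ≠ 0 := by
    by_contra hcon
    push Not at hcon
    exact hu0 (LinearMap.ext hcon)
  have hDu : ∀ v, D (u v) = u v := fun v => LinearMap.congr_fun hu.2.1 v
  rcases hirr (Submodule.span K {u w}) (by
      intro v hv
      obtain ⟨c, rfl⟩ := Submodule.mem_span_singleton.1 hv
      rw [map_smul, hDu]) (by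
      intro x hx y hy v hv
      obtain ⟨c, rfl⟩ := Submodule.mem_span_singleton.1 hv
      obtain ⟨s, rfl⟩ := hx1 x hx
      obtain ⟨t, rfl⟩ := hy1 y hy
      have e1 : u (d (u w)) = u w := LinearMap.congr_fun h1 w
      refine Submodule.mem_span_singleton.2 ⟨c * (t * s), ?_⟩
      simp only [LinearMap.smul_apply, map_smul, e1, smul_smul]
      congr 1
      ring) with h3 | h3
  · exfalso
    exact hw (Submodule.span_singleton_eq_bot.1 h3)
  · refine ⟨u, hu.1, ?_⟩
    have h4 : LinearMap.range u ≤ Submodule.span K {u w} := by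
      rintro _ ⟨v, rfl⟩
      exact h3 _ (hDu v)
    have h5 : rk u ≤ 1 := by
      unfold rk
      rw [← finrank_span_singleton (K := K) hw]
      exact Submodule.finrank_mono h4
    have h6 : rk u ≠ 0 := fun h0 => hu0 (rk_eq_zero h0)
    omega

theorem four_dvd_centralBinom {j : ℕ} (hj : 1 ≤ j) : 4 ∣ (2 * j + 1).centralBinom := by
  have h1 := Nat.succ_mul_centralBinom_succ (2 * j)
  have h2 : 2 ∣ (2 * j).centralBinom := Nat.two_dvd_centralBinom_of_one_le (by omega)
  have h3 : 4 ∣ (2 * j + 1) * (2 * j + 1).centralBinom := by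
    rw [h1]
    obtain ⟨k, hk⟩ := h2
    rw [hk]
    exact ⟨(2 * (2 * j) + 1) * k, by ring⟩
  have h4 : Nat.Coprime 4 (2 * j + 1) := by
    have : Nat.Coprime (2 ^ 2) (2 * j + 1) :=
      Nat.Coprime.pow_left 2 (by
        rw [Nat.coprime_two_left]
        exact ⟨j, rfl⟩)
    exact this
  exact h4.dvd_of_dvd_mul_left h3

include h in
/-- **Elements of rank one**: the dimension is not divisible by four. -/
theorem rank_one_four [IsAlgClosed K] (hs : Scal G) {ω : V →ₗ[K] V →ₗ[K] K}
    (hω : AltF st ω) (htr : TrSt st) {D : End K V} (hD : D ∈ G) (hD2 : D * D = 1)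
    (hgn : G ≤ gn G D) (h4 : ¬ 4 ∣ finrank K V) : ∃ e ∈ G, rk e = 1 := by
  have hV : finrank K V ≠ 0 := by
    intro h0
    apply h4
    rw [h0]
    exact dvd_zero _
  by_cases hall : ∀ x ∈ G, x * x = 0 → x ≠ 0 → 2 * rk x = finrank K V
  · exact full_case h hs hD hD2 hgn hV hall
  push Not at hall
  obtain ⟨N, hN, hN2, hN0, hNr⟩ := hall
  obtain ⟨e, he, -, -, he1, -, -⟩ := rank_one_sharp h hs hω htr hD hD2 hgn hN hN2 hN0
    (fun h5 => h4 ⟨rk N, h5.symm⟩) hNr
    (Or.inl fun j hj h5 => absurd (h5 ▸ four_dvd_centralBinom hj) h4)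
  exact ⟨e, he, he1⟩

end Pool.Agent.Y265.P
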